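import Pool.Graph.R_pool_sql_team_39128cda.H.MP_1dc5fb_an.L

set_option autoImplicit false

/-! The planar example of the library, with the surface measure of the graph written as
`sqrt (1 + φ'²) dx`. -/

namespace Pool.Agent.H75Robin

open MeasureTheory Filter Topology Set Metric
open scoped ContDiff NNReal
open Pool.Agent.H.MP_1dc5fb_an

/-- the surface density -/
noncomputable def den (φ : ℝ → ℝ) (x : ℝ) : ℝ := Real.sqrt (1 + deriv φ x ^ 2)

theorem den_one (φ : ℝ → ℝ) (x : ℝ) : 1 ≤ den φ x :=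
  Real.one_le_sqrt.2 (by nlinarith [sq_nonneg (deriv φ x)])

theorem den_meas (φ : ℝ → ℝ) : Measurable (den φ) :=
  ((measurable_deriv φ).pow_const 2).const_add 1 |>.sqrt

/-- the surface measure -/
noncomputable def sm (φ : ℝ → ℝ) : Measure ℝ := volume.withDensity fun x => ENNReal.ofReal (den φ x)

section
variable {φ : ℝ → ℝ} {L : ℝ}

theorem deriv_le (hL : 0 ≤ L) (hl : ∀ x x', |φ x - φ x'| ≤ L * |x - x'|) (x : ℝ) :
    |deriv φ x| ≤ L := by
  have h : LipschitzWith ⟨L, hL⟩ φ := LipschitzWith.of_dist_le_mul fun x y => hl x y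
  exact norm_deriv_le_of_lipschitz h

theorem den_le (hL : 0 ≤ L) (hl : ∀ x x', |φ x - φ x'| ≤ L * |x - x'|) (x : ℝ) :
    den φ x ≤ L + 1 := by
  refine Real.sqrt_le_iff.2 ⟨by linarith, ?_⟩
  have := deriv_le hL hl x
  have h2 : deriv φ x ^ 2 ≤ L ^ 2 := by
    rw [← sq_abs]
    exact pow_le_pow_left₀ (abs_nonneg _) this 2
  nlinarith

theorem sm_lo : volume ≤ sm φ := by
  have h : (volume : Measure ℝ) = volume.withDensity 1 := withDensity_one.symm
  nth_rewrite 1 [h]
  refine withDensity_mono (Eventually.of_forall fun x => ?_)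
  rw [Pi.one_apply, ENNReal.one_le_ofReal]
  exact den_one φ x

theorem sm_up (hL : 0 ≤ L) (hl : ∀ x x', |φ x - φ x'| ≤ L * |x - x'|) :
    sm φ ≤ ENNReal.ofReal (L + 1) • volume := by
  rw [← withDensity_const]
  exact withDensity_mono (Eventually.of_forall fun x => ENNReal.ofReal_le_ofReal (den_le hL hl x))

theorem sm_inv {T : ℝ} (hp : ∀ x, φ (x + T) = φ x) :
    MeasurePreserving (fun x => x + T) (sm φ) (sm φ) := by
  have hd : ∀ x, den φ (x + T) = den φ x := by
    intro x
    have : deriv φ (x + T) = deriv φ x := by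
      rw [← deriv_comp_add_const φ T x]
      congr 1
      funext y
      exact hp y
    rw [den, den, this]
  refine ⟨by fun_prop, Measure.ext fun s hs => ?_⟩
  rw [Measure.map_apply (by fun_prop) hs, sm, withDensity_apply _ (hs.preimage (by fun_prop)),
    withDensity_apply _ hs,
    ← (measurePreserving_add_right volume T).setLIntegral_comp_preimage hs
      (den_meas φ).ennreal_ofReal]
  simp only [hd]

theorem sm_steep (_h : Continuous φ) (hL : 0 ≤ L) (hl : ∀ x x', |φ x - φ x'| ≤ L * |x - x'|)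
    {η : ℝ} (hη : 0 < η) {a b : ℝ}
    (hB : ∀ j : ℤ, ∀ x ∈ Ico a b ∩ Ico (j • η) ((j + 1) • η),
      ∀ x' ∈ Ico a b ∩ Ico (j • η) ((j + 1) • η), |φ x - φ x'| = L * |x - x'|)
    {s : Set ℝ} (hs : MeasurableSet s) (hsub : s ⊆ Ico a b) :
    ENNReal.ofReal L * volume s ≤ sm φ s := by
  have lip : LipschitzWith ⟨L, hL⟩ φ := LipschitzWith.of_dist_le_mul fun x y => hl x y
  have hdiff := lip.ae_differentiableAt_real
  have hcount : (Set.range fun j : ℤ => j • η).Countable := countable_range _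
  have hnull : ∀ᵐ x : ℝ, x ∉ Set.range fun j : ℤ => j • η := hcount.ae_notMem _
  have hae : ∀ᵐ x : ℝ, x ≠ a := by
    rw [ae_iff]; simp
  rw [sm, withDensity_apply _ hs, ← setLIntegral_const]
  refine setLIntegral_mono_ae ((den_meas φ).ennreal_ofReal.aemeasurable) ?_
  filter_upwards [hdiff, hnull, hae] with x h1 h2 h3 hx
  refine ENNReal.ofReal_le_ofReal ?_
  have hxab := hsub hx
  obtain ⟨j, hj⟩ : ∃ j : ℤ, x ∈ Ico (j • η) ((j + 1) • η) := by
    have := iUnion_Ico_zsmul hη
    have hx' : x ∈ ⋃ n : ℤ, Ico (n • η) ((n + 1) • η) := by rw [this]; trivial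
    exact mem_iUnion.1 hx'
  have hj' : j • η < x := lt_of_le_of_ne hj.1 fun e => h2 ⟨j, e⟩
  have ha' : a < x := lt_of_le_of_ne hxab.1 (Ne.symm h3)
  have hder := h1.hasDerivAt
  have hslope := (hasDerivAt_iff_tendsto_slope.1 hder).abs
  have hev : ∀ᶠ y in 𝓝[≠] x, |slope φ x y| = L := by
    have hnb : ∀ᶠ y in 𝓝 x, y ∈ Ioo a b ∩ Ioo (j • η) ((j + 1) • η) :=
      (isOpen_Ioo.inter isOpen_Ioo).mem_nhds ⟨⟨ha', hxab.2⟩, hj', hj.2⟩
    filter_upwards [hnb.filter_mono nhdsWithin_le_nhds, self_mem_nhdsWithin] with y hy hne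
    have e := hB j y ⟨⟨hy.1.1.le, hy.1.2⟩, hy.2.1.le, hy.2.2⟩ x ⟨hxab, hj⟩
    have hne' : |y - x| ≠ 0 := abs_ne_zero.2 (sub_ne_zero.2 hne)
    rw [slope_def_field, abs_div, e, mul_div_assoc, div_self hne', mul_one]
  have hlim : |deriv φ x| = L :=
    tendsto_nhds_unique hslope ((tendsto_congr' hev).2 tendsto_const_nhds)
  rw [den, ← sq_abs, hlim]
  exact Real.le_sqrt_of_sq_le (by linarith)

end

theorem geo2 : ∃ (G : Geo) (β l : ℝ), 0 < β ∧ 0 < l ∧ G.σ = ENNReal.ofReal β • sm G.φ ∧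
    ∃ U1 U2, G.Sol l U1 ∧ G.Sol l U2 ∧ ¬EqOn U1 U2 G.Ω := by
  obtain ⟨w, hw⟩ : ∃ w : ℝ, w = 1 / 800000 := ⟨_, rfl⟩
  have w0 : 0 < w := by rw [hw]; norm_num
  have g0 := G1_pos
  obtain ⟨β, hβ⟩ : ∃ β : ℝ, β = G1 (1 / 2) * w / 16 := ⟨_, rfl⟩
  have β0 : 0 < β := by rw [hβ]; positivity
  obtain ⟨L, hL⟩ : ∃ L : ℝ, L = 500000 / β + 1 := ⟨_, rfl⟩
  have L1 : 1 ≤ L := by rw [hL]; exact le_add_of_nonneg_left (by positivity)
  have L2 : β * L = 500000 + β := by rw [hL]; field_simp
  obtain ⟨n, hn⟩ := exists_nat_gt (L * w * 500000 + 1)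
  have Lw : 0 < L * w := by positivity
  have n1 : (1 : ℝ) < n := by linarith
  obtain ⟨h, hh⟩ : ∃ h : ℝ, h = w / (2 * n) := ⟨_, rfl⟩
  have h0 : 0 < h := by rw [hh]; positivity
  have h1 : (4 * n : ℤ) * (2 * h) = 4 * w := by rw [hh]; push_cast; field_simp
  have h2 : h * (2 * n) = w := by rw [hh]; field_simp
  have h3 : h ≤ w := by nlinarith
  have h4 : L * h ≤ 1 / 500000 := by
    refine le_of_mul_le_mul_right (a := 2 * (n : ℝ)) ?_ (by linarith)
    rw [mul_assoc, h2]; linarith
  set φ : ℝ → ℝ := fun x => -L * max (tooth (2 * h) x) (w - tooth (4 * w) (x - w)) with hφ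
  have lip : ∀ x x', |φ x - φ x'| ≤ L * |x - x'| := fun x x' => by
    simp only [hφ]
    rw [← mul_sub, abs_mul, abs_neg, abs_of_nonneg (by linarith : 0 ≤ L)]
    refine mul_le_mul_of_nonneg_left ((abs_max_sub_max_le_max _ _ _ _).trans
      (max_le (tooth_lip _ _ _) ?_)) (by linarith)
    rw [sub_sub_sub_cancel_left, abs_sub_comm]
    simpa using tooth_lip (4 * w) (x - w) (x' - w)
  have c : Continuous φ := (LipschitzWith.of_dist_le_mul (K := ⟨L, by linarith⟩) lip).continuous
  have per : ∀ x, φ (x + 4 * w) = φ x := fun x => by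
    have e1 := tooth_per (2 * h) x (4 * n)
    have e2 := tooth_per (4 * w) (x - w) 1
    rw [h1] at e1
    simp only [hφ, e1]
    rw [← e2]; congr 4; push_cast; ring
  have tb := tooth_b (show 0 < 2 * h by linarith)
  have eF : ∀ x ∈ Ico (2 * w) (3 * w), φ x = -L * tooth (2 * h) x := fun x hx => by
    simp only [hφ]
    rw [tooth_eq (x := x - w) (by linarith) 0 (abs_le.2 ⟨by simp; linarith [hx.1],
      by simp; linarith [hx.2]⟩), max_eq_left]
    simp only [Int.cast_zero, zero_mul, sub_zero]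
    linarith [le_abs_self (x - w), (tb x).1, hx.1]
  let G : Geo := ⟨4 * w, L * w, L, β, β * (L + 1), φ, ENNReal.ofReal β • sm φ, by linarith,
    by linarith, β0, by positivity, lip, per, fun x => by
      simp only [hφ, neg_mul, neg_le_neg_iff]
      exact mul_le_mul_of_nonneg_left (max_le (by linarith [(tb x).2]) (by
        linarith [(tooth_b (show 0 < 4 * w by linarith) (x - w)).1])) (by linarith),
    fun x => mul_nonpos_of_nonpos_of_nonneg (by linarith) (le_max_of_le_left (tb x).1),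
    by gcongr; exact sm_lo, by
      rw [ENNReal.ofReal_mul β0.le, mul_smul]; gcongr; exact sm_up (by linarith) lip,
    (sm_inv per).smul_measure _⟩
  refine ⟨G, β, 1 / (4 * (L * w + 1) ^ 2), β0, by positivity, rfl,
    G.two (δ := 1 / 500000) (c := β * L) (F := Ico (2 * w) (3 * w)) (x1 := w / 2) (x2 := 3 * w / 2)
    (y1 := -(L * w / 2)) (by positivity) (le_of_eq (by simp only [G]; field_simp)) (by norm_num)
    le_rfl (by simp only [G]; rw [hw]; norm_num) (by linarith) measurableSet_Ico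
    (Ico_subset_Ico (by linarith) (by simp only [G]; linarith))
    (by rw [Real.volume_real_Ico_of_le (by linarith)]; simp only [G]; ring) (fun x hx => by
      change _ ≤ φ x
      rw [eF x hx]; nlinarith [(tb x).2]) (Measure.le_iff.2 fun s hs => ?_) (by linarith)
    (by linarith) (fun p hp => ⟨⟨by linarith [hp.1.1], by simp only [G]; linarith [hp.1.2]⟩, ?_⟩)
    (by simp only [G]; rw [show G1 (1 / 2) = 16 * β / w by rw [hβ]; field_simp]; field_simp
        nlinarith)⟩
  · have := sm_steep c (by linarith : 0 ≤ L) lip h0 (a := 2 * w) (b := 3 * w) (fun j x hx x' hx' => by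
      rw [eF x hx.1, eF x' hx'.1, ← mul_sub, abs_mul, abs_neg, abs_of_nonneg (by linarith : 0 ≤ L),
        tooth_st h0 j hx.2 hx'.2]) (hs.inter measurableSet_Ico) inter_subset_right
    simp only [Geo.ν, G, Measure.smul_apply, Measure.restrict_apply hs, smul_eq_mul,
      ENNReal.ofReal_mul β0.le, mul_assoc]
    gcongr
    exact this.trans (measure_mono (inter_subset_inter_right _
      (Ico_subset_Ico (by linarith) (by linarith))))
  · change φ p.1 < p.2
    have k1 : w / 2 ≤ w - tooth (4 * w) (p.1 - w) := by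
      rw [tooth_eq (x := p.1 - w) (by linarith) 0 (abs_le.2 ⟨by simp; linarith [hp.1.1],
        by simp; linarith [hp.1.2]⟩)]
      simp only [Int.cast_zero, zero_mul, sub_zero]
      have : |p.1 - w| ≤ w / 2 := abs_le.2 ⟨by linarith [hp.1.1], by linarith [hp.1.2]⟩
      linarith
    have := mul_le_mul_of_nonneg_left (le_max_of_le_right (b := tooth (2 * h) p.1) k1)
      (by linarith : 0 ≤ L)
    simp only [hφ]
    linarith [hp.2.1]


end Pool.Agent.H75Robin
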